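import Mathlib

/-!
# Real points of rational polyhedral cones are positive combinations of integral points
-/

set_option autoImplicit false

namespace Q47.MM

/-- A real vector is a convex combination of rational vectors near to it. -/
theorem mem_hull_rat {d : ℕ} (e : Fin d → ℝ) {δ : ℝ} (hδ : 0 < δ) :
    e ∈ convexHull ℝ {y : Fin d → ℝ | ∀ l, (∃ q : ℚ, (q : ℝ) = y l) ∧ |y l - e l| < δ} := by
  have h1 : e ∈ convexHull ℝ (Set.univ.pi fun l : Fin d =>
      {y : ℝ | (∃ q : ℚ, (q : ℝ) = y) ∧ |y - e l| < δ}) := by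
    refine mem_convexHull_pi fun l _ => ?_
    obtain ⟨α, hα1, hα2⟩ := exists_rat_btwn (show e l - δ < e l by linarith)
    obtain ⟨β, hβ1, hβ2⟩ := exists_rat_btwn (show e l < e l + δ by linarith)
    have hseg : e l ∈ segment ℝ (α : ℝ) (β : ℝ) := by
      rw [segment_eq_Icc (hα2.le.trans hβ1.le)]
      exact ⟨hα2.le, hβ1.le⟩
    refine (convex_convexHull ℝ _).segment_subset (subset_convexHull ℝ _ ?_)
      (subset_convexHull ℝ _ ?_) hseg
    · exact ⟨⟨α, rfl⟩, by rw [abs_lt]; constructor <;> linarith⟩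
    · exact ⟨⟨β, rfl⟩, by rw [abs_lt]; constructor <;> linarith⟩
  refine convexHull_mono ?_ h1
  intro y hy l
  exact hy l trivial

/-- Real points of rational cones are positive combinations of integral points of the cone, which
satisfy strictly all the inequalities which the point satisfies strictly. -/
theorem cone_decomp {r : ℕ} {J : Type*} [Finite J] (n : J → Fin r → ℤ) (x : Fin r → ℝ)
    (hx : ∀ j, 0 ≤ ∑ i, (n j i : ℝ) * x i) :
    ∃ (ι : Type) (_ : Fintype ι) (c : ι → ℝ) (b : ι → Fin r → ℤ), (∀ k, 0 < c k) ∧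
      (∀ i, ∑ k, c k * b k i = x i) ∧ ∀ k j, 0 ≤ ∑ i, n j i * b k i ∧
        (0 < ∑ i, (n j i : ℝ) * x i → 0 < ∑ i, n j i * b k i) := by
  classical
  have := Fintype.ofFinite J
  let E : Submodule ℚ ℝ := Submodule.span ℚ (Set.range x)
  have : FiniteDimensional ℚ E := FiniteDimensional.span_of_finite ℚ (Set.finite_range x)
  let B := Module.finBasis ℚ E
  set d := Module.finrank ℚ E with hd
  have hxE : ∀ i, x i ∈ E := fun i => Submodule.subset_span ⟨i, rfl⟩
  let q : Fin r → Fin d → ℚ := fun i l => B.repr ⟨x i, hxE i⟩ l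
  let e : Fin d → ℝ := fun l => (B l : ℝ)
  have hq : ∀ i, ∑ l, (q i l : ℝ) * e l = x i := by
    intro i
    have h1 := congrArg (Subtype.val) (B.sum_repr ⟨x i, hxE i⟩)
    rw [Submodule.coe_sum] at h1
    refine Eq.trans ?_ h1
    refine Finset.sum_congr rfl fun l _ => ?_
    rw [Submodule.coe_smul, Rat.smul_def]
  have hli : ∀ c : Fin d → ℚ, ∑ l, (c l : ℝ) * e l = 0 → ∀ l, c l = 0 := by
    intro c hc
    refine Fintype.linearIndependent_iff.1 B.linearIndependent c ?_
    apply Subtype.ext
    rw [Submodule.coe_sum, Submodule.coe_zero, ← hc]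
    refine Finset.sum_congr rfl fun l _ => ?_
    rw [Submodule.coe_smul, Rat.smul_def]
  -- the inequalities as functions of the coordinates
  let A : J → Fin d → ℚ := fun j l => ∑ i, (n j i : ℚ) * q i l
  have hA : ∀ (j : J) (y : Fin d → ℝ),
      ∑ i, (n j i : ℝ) * ∑ l, (q i l : ℝ) * y l = ∑ l, (A j l : ℝ) * y l := by
    intro j y
    simp only [A]
    push_cast
    simp only [Finset.mul_sum, Finset.sum_mul]
    rw [Finset.sum_comm]
    refine Finset.sum_congr rfl fun l _ => Finset.sum_congr rfl fun i _ => by ring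
  have hAe : ∀ j, ∑ l, (A j l : ℝ) * e l = ∑ i, (n j i : ℝ) * x i := by
    intro j
    rw [← hA]
    exact Finset.sum_congr rfl fun i _ => by rw [hq]
  have hopen : IsOpen {y : Fin d → ℝ | ∀ j, 0 < ∑ l, (A j l : ℝ) * e l →
      0 < ∑ l, (A j l : ℝ) * y l} := by
    have h1 : {y : Fin d → ℝ | ∀ j, 0 < ∑ l, (A j l : ℝ) * e l → 0 < ∑ l, (A j l : ℝ) * y l}
        = ⋂ j, {y : Fin d → ℝ | 0 < ∑ l, (A j l : ℝ) * e l → 0 < ∑ l, (A j l : ℝ) * y l} := by
      ext y
      simp
    rw [h1]
    refine isOpen_iInter_of_finite fun j => ?_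
    by_cases hj : 0 < ∑ l, (A j l : ℝ) * e l
    · simp only [hj, true_imp_iff]
      exact isOpen_lt continuous_const (continuous_finsetSum _ fun l _ =>
        continuous_const.mul (continuous_apply l))
    · simp only [hj, false_imp_iff]
      exact isOpen_univ
  obtain ⟨δ, hδ, hball⟩ := Metric.isOpen_iff.1 hopen e (fun j hj => hj)
  have hmem := mem_hull_rat e (half_pos hδ)
  rw [mem_convexHull_iff_exists_fintype] at hmem
  obtain ⟨κ, hκ, w, z, hw0, hw1, hz, hwz⟩ := hmem
  have hz' : ∀ k l, (∃ q : ℚ, (q : ℝ) = z k l) ∧ |z k l - e l| < δ / 2 := fun k l => hz k l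
  choose y hy using fun k l => (hz' k l).1
  have hyδ : ∀ k l, |z k l - e l| < δ / 2 := fun k l => (hz' k l).2
  have hzball : ∀ k, z k ∈ Metric.ball e δ := by
    intro k
    rw [Metric.mem_ball, dist_pi_lt_iff hδ]
    intro l
    rw [Real.dist_eq]
    linarith [hyδ k l]
  -- the rational points and a common denominator
  let X : κ → Fin r → ℚ := fun k i => ∑ l, q i l * y k l
  have hX : ∀ k i, (X k i : ℝ) = ∑ l, (q i l : ℝ) * z k l := by
    intro k i
    simp only [X]
    push_cast
    exact Finset.sum_congr rfl fun l _ => by rw [hy]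
  let D : κ → ℕ := fun k => ∏ i, (X k i).den
  have hD : ∀ k, 0 < D k := fun k => Finset.prod_pos fun i _ => (X k i).pos
  have hint : ∀ k i, ∃ b : ℤ, (b : ℚ) = D k * X k i := by
    intro k i
    obtain ⟨t, ht⟩ := Finset.dvd_prod_of_mem (fun i => (X k i).den) (Finset.mem_univ i)
    refine ⟨t * (X k i).num, ?_⟩
    have h1 : (D k : ℚ) = (X k i).den * t := by
      have : D k = (X k i).den * t := ht
      rw [this]
      push_cast
      ring
    rw [h1]
    push_cast
    rw [mul_right_comm, ← Rat.mul_den_eq_num]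
    ring
  choose b hb using hint
  have hbX : ∀ k i, (b k i : ℝ) = D k * X k i := fun k i => by exact_mod_cast hb k i
  have hsum : ∀ i, ∑ k, w k * (X k i : ℝ) = x i := by
    intro i
    rw [← hq i]
    have h1 : ∀ l, ∑ k, w k * z k l = e l := by
      intro l
      have := congrFun hwz l
      rw [Finset.sum_apply] at this
      rw [← this]
      exact Finset.sum_congr rfl fun k _ => rfl
    simp only [hX, Finset.mul_sum, ← h1]
    rw [Finset.sum_comm]
    exact Finset.sum_congr rfl fun l _ => Finset.sum_congr rfl fun k _ => by ring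
  let ι := {k : κ // 0 < w k}
  refine ⟨ι, inferInstance, fun k => w k.1 / D k.1, fun k => b k.1, fun k =>
    div_pos k.2 (by exact_mod_cast hD k.1), ?_, ?_⟩
  · intro i
    rw [← hsum i]
    have h1 : ∑ k, w k * (X k i : ℝ) = ∑ k ∈ Finset.univ.filter (fun k => 0 < w k),
        w k * (X k i : ℝ) := by
      rw [Finset.sum_filter_of_ne]
      intro k _ hk
      rcases (hw0 k).lt_or_eq with h | h
      · exact h
      · rw [← h, zero_mul] at hk
        exact absurd rfl hk
    rw [h1, ← Finset.sum_subtype_eq_sum_filter]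
    have h2 : Finset.univ.subtype (fun k : κ => 0 < w k) = Finset.univ := by
      ext k
      simp
    rw [h2]
    refine Finset.sum_congr rfl fun k _ => ?_
    have h3 : (D k.1 : ℝ) ≠ 0 := by exact_mod_cast (hD k.1).ne'
    rw [hbX]
    field_simp
  · intro k j
    have h1 : ((∑ i, n j i * b k.1 i : ℤ) : ℝ) = D k.1 * ∑ l, (A j l : ℝ) * z k.1 l := by
      rw [← hA]
      push_cast
      rw [Finset.mul_sum]
      refine Finset.sum_congr rfl fun i _ => ?_
      rw [hbX, hX]
      ring
    have hpos : 0 < ∑ l, (A j l : ℝ) * e l → 0 < ∑ i, n j i * b k.1 i := by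
      intro h
      have h2 := hball (hzball k.1) j h
      have h3 : (0 : ℝ) < D k.1 := by exact_mod_cast hD k.1
      have h4 : (0 : ℝ) < ((∑ i, n j i * b k.1 i : ℤ) : ℝ) := by
        rw [h1]
        exact mul_pos h3 h2
      exact_mod_cast h4
    refine ⟨?_, fun h => hpos (by rwa [hAe])⟩
    rcases (hx j).lt_or_eq with h | h
    · exact (hpos (by rwa [hAe])).le
    · rw [← hAe] at h
      have h2 := hli (A j) h.symm
      have h3 : ((∑ i, n j i * b k.1 i : ℤ) : ℝ) = 0 := by
        rw [h1, Finset.sum_eq_zero fun l _ => by rw [h2 l, Rat.cast_zero, zero_mul], mul_zero]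
      have h4 : ∑ i, n j i * b k.1 i = 0 := by exact_mod_cast h3
      exact h4.ge

end Q47.MM
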