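import Pool.Agent.Q47.MM.Refl

/-!
# The canonical divisor of a torus quotient is trivial in the directions fixed by the reflections
-/

set_option autoImplicit false

namespace Q47.MM

open Pool.Agent.W594.SYZ2 Pool.Agent.W594.SYZ2.TQ Pool.Agent.TH735.AQ

/-- A rapidly decaying entire function is zero. -/
theorem zero_of_decay {f : ℂ → ℂ} (hf : Differentiable ℂ f) {R c : ℝ} (hR : 0 ≤ R) (hc : 0 < c)
    (h : ∀ z, ‖f z‖ ^ 2 ≤ R * Real.exp (-(c * ‖z‖ ^ 2))) (z : ℂ) : f z = 0 := by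
  have hb : Bornology.IsBounded (Set.range f) := by
    rw [isBounded_iff_forall_norm_le]
    refine ⟨R + 1, ?_⟩
    rintro _ ⟨z, rfl⟩
    have h1 : Real.exp (-(c * ‖z‖ ^ 2)) ≤ 1 := Real.exp_le_one_iff.2 (by
      have : 0 ≤ c * ‖z‖ ^ 2 := by positivity
      linarith)
    have h2 := h z
    nlinarith [norm_nonneg (f z), Real.exp_pos (-(c * ‖z‖ ^ 2)), sq_nonneg (‖f z‖ - 1)]
  have hconst : ∀ w, f w = f z := fun w => hf.apply_eq_apply_of_bounded hb _ _
  by_contra h0
  have hpos : 0 < ‖f z‖ ^ 2 := by positivity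
  have hlim : Filter.Tendsto (fun n : ℕ => R * Real.exp (-(c * (n : ℝ) ^ 2))) Filter.atTop
      (nhds (R * 0)) := by
    refine Filter.Tendsto.const_mul R ?_
    refine Real.tendsto_exp_neg_atTop_nhds_zero.comp ?_
    refine Filter.Tendsto.const_mul_atTop hc ?_
    exact (Filter.tendsto_pow_atTop (two_ne_zero)).comp tendsto_natCast_atTop_atTop
  rw [mul_zero] at hlim
  have h1 : ‖f z‖ ^ 2 ≤ 0 := by
    refine ge_of_tendsto' hlim fun n => ?_
    have h2 := h (n : ℂ)
    rw [hconst, Complex.norm_natCast] at h2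
    exact h2
  linarith

variable {V : Type*} [NormedAddCommGroup V] [NormedSpace ℂ V]
  {Γ : Subgroup (V ≃ᵃ[ℂ] V)}

/-- The linear part of a reflection of `Γ` is a complex reflection. -/
theorem refl_of_mirror (hΓ : IsTorusQuotient Γ) {γ : V ≃ᵃ[ℂ] V} (hγ : γ ∈ Γ) (hne : γ ≠ 1)
    {ℓ : V →ₗ[ℂ] ℂ} (hℓ : ℓ ≠ 0) {v : V} (hf : ∀ w, ℓ w = ℓ v → γ w = w) :
    ∃ a, IsRefl γ.linear ℓ a := by
  have := finite_Lin hΓ
  obtain ⟨v1, hv1⟩ : ∃ v1, ℓ v1 ≠ 0 := by
    by_contra h
    push Not at h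
    exact hℓ (LinearMap.ext h)
  set v0 := (ℓ v1)⁻¹ • v1 with hv0
  have h0 : ℓ v0 = 1 := by rw [hv0, map_smul, smul_eq_mul, inv_mul_cancel₀ hv1]
  have hker : ∀ y, ℓ y = 0 → γ.linear y = y := by
    intro y hy
    have e1 := hf (v + y) (by rw [map_add, hy, add_zero])
    rw [act_add, hf v rfl] at e1
    exact add_left_cancel e1
  have heq : ∀ x, γ.linear x = x + ℓ x • (γ.linear v0 - v0) := by
    intro x
    have e1 := hker (x - ℓ x • v0) (by rw [map_sub, map_smul, h0, smul_eq_mul, mul_one, sub_self])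
    rw [map_sub, map_smul] at e1
    rw [smul_sub]
    calc γ.linear x = (γ.linear x - ℓ x • γ.linear v0) + ℓ x • γ.linear v0 := by abel
      _ = (x - ℓ x • v0) + ℓ x • γ.linear v0 := by rw [e1]
      _ = _ := by abel
  refine ⟨γ.linear v0 - v0, heq, ?_⟩
  intro ha
  set a := γ.linear v0 - v0 with hadef
  let g : Lin Γ := ⟨γ.linear, γ, hγ, rfl⟩
  have hpow : ∀ (n : ℕ) (x : V), (g ^ n).1 x = x + (n : ℂ) • ℓ x • a := by
    intro n
    induction n with
    | zero => intro x; rw [pow_zero, Nat.cast_zero, zero_smul, add_zero]; rfl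
    | succ n ih =>
      intro x
      have e1 : (g ^ (n + 1)).1 x = (g ^ n).1 (γ.linear x) := by rw [pow_succ]; rfl
      rw [e1, ih, heq x, map_add, map_smul, ha, smul_zero, add_zero, Nat.cast_succ, add_smul,
        one_smul]
      abel
  have h1 := hpow (Nat.card (Lin Γ)) v0
  rw [pow_card_eq_one', h0, one_smul] at h1
  have h2 : ((Nat.card (Lin Γ) : ℕ) : ℂ) • a = 0 := by
    have h3 : v0 = v0 + ((Nat.card (Lin Γ) : ℕ) : ℂ) • a := h1
    exact (left_eq_add.1 h3)
  have h3 : a = 0 := (smul_eq_zero.1 h2).resolve_left (by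
    have : Nat.card (Lin Γ) ≠ 0 := Nat.card_pos.ne'
    exact_mod_cast this)
  apply hne
  apply AffineEquiv.ext
  intro w
  have e1 : w = v + (w - v) := by abel
  have e2 : γ w = w := by
    rw [e1, act_add, hf v rfl, heq, h3, smul_zero, add_zero]
  exact e2

/-- Translations by fixed vectors preserve the mirrors. -/
theorem not_onMirror_add (hΓ : IsTorusQuotient Γ) {v₀ x : V} (hv : ¬ OnMirror Γ v₀)
    (hx : IsFixed Γ x) : ¬ OnMirror Γ (v₀ + x) := by
  rintro ⟨γ, hγ, hne, ℓ, hℓ, hf⟩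
  obtain ⟨a, ha⟩ := refl_of_mirror hΓ hγ hne hℓ hf
  have h1 : ℓ x = 0 := ha.fix.1 (hx _ ⟨γ, hγ, rfl⟩ ⟨ℓ, a, ha⟩)
  exact hv ⟨γ, hγ, hne, ℓ, hℓ, fun w hw => hf w (by rw [hw, map_add, h1, add_zero])⟩

/-- The space of the vectors fixed by the reflections. -/
def fixSpace (Γ : Subgroup (V ≃ᵃ[ℂ] V)) : Submodule ℂ V where
  carrier := {x | IsFixed Γ x}
  zero_mem' := fun g _ _ => map_zero g
  add_mem' := fun hx hy g hg h => by rw [map_add, hx g hg h, hy g hg h]
  smul_mem' := fun c x hx g hg h => by rw [map_smul, hx g hg h]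

/-- The linear parts which are trivial on the space. -/
def fixGroup (Γ : Subgroup (V ≃ᵃ[ℂ] V)) : Subgroup (Lin Γ) where
  carrier := {g | ∀ x ∈ fixSpace Γ, g.1 x = x}
  mul_mem' := by
    intro g h hg hh x hx
    change g.1 (h.1 x) = x
    rw [hh x hx, hg x hx]
  one_mem' := fun x _ => rfl
  inv_mem' := by
    intro g hg x hx
    change g.1.symm x = x
    rw [LinearEquiv.symm_apply_eq, hg x hx]

/-- The lattice vectors fixed by the reflections span the space of the fixed vectors. -/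
theorem fix_span [FiniteDimensional ℂ V] (hΓ : IsTorusQuotient Γ) :
    Submodule.span ℝ ((latt Γ).comap (fixSpace Γ).subtype.toAddMonoidHom : Set (fixSpace Γ))
      = ⊤ := by
  classical
  have := finite_Lin hΓ
  have : Fintype (fixGroup Γ) := Fintype.ofFinite _
  let A : V →ₗ[ℝ] V := ∑ g : fixGroup Γ, ((g.1.1 : V →ₗ[ℂ] V).restrictScalars ℝ)
  have hA : ∀ v, A v = ∑ g : fixGroup Γ, g.1.1 v := by
    intro v
    simp only [A, LinearMap.sum_apply]
    rfl
  have hAK : ∀ b ∈ latt Γ, A b ∈ latt Γ ∧ A b ∈ fixSpace Γ := by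
    intro b hb
    rw [hA]
    constructor
    · refine (latt Γ).sum_mem fun g _ => ?_
      obtain ⟨γ, hγ, h⟩ := g.1.2
      rw [← h]
      exact latt_inv γ hγ hb
    · intro k hk hr
      rw [map_sum]
      let k' : fixGroup Γ := ⟨⟨k, hk⟩, fun x hx => hx k hk hr⟩
      refine Fintype.sum_equiv (Equiv.mulLeft k') _ _ ?_
      intro g
      rfl
  have hn : 0 < Fintype.card (fixGroup Γ) := Fintype.card_pos_iff.2 ⟨1⟩
  have hspanV : ∀ x ∈ fixSpace Γ, x ∈ Submodule.span ℝ {b | b ∈ latt Γ ∧ b ∈ fixSpace Γ} := by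
    intro x hx
    have h2 : A x ∈ Submodule.span ℝ {b | b ∈ latt Γ ∧ b ∈ fixSpace Γ} := by
      have h3 : A x ∈ (Submodule.span ℝ (latt Γ : Set V)).map A := by
        rw [hΓ.span_top]
        exact ⟨x, trivial, rfl⟩
      rw [Submodule.map_span] at h3
      refine Submodule.span_mono ?_ h3
      rintro _ ⟨b, hb, rfl⟩
      exact hAK b hb
    have h3 : A x = (Fintype.card (fixGroup Γ) : ℝ) • x := by
      rw [hA, Finset.sum_congr rfl fun g _ => g.2 x hx, Finset.sum_const, Finset.card_univ,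
        ← Nat.cast_smul_eq_nsmul ℝ]
    have h4 : x = ((Fintype.card (fixGroup Γ) : ℝ)⁻¹) • A x := by
      rw [h3, smul_smul, inv_mul_cancel₀ (by positivity), one_smul]
    rw [h4]
    exact Submodule.smul_mem _ _ h2
  have hmap : (Submodule.span ℝ ((latt Γ).comap (fixSpace Γ).subtype.toAddMonoidHom :
      Set (fixSpace Γ))).map ((fixSpace Γ).subtype.restrictScalars ℝ)
      = Submodule.span ℝ {b | b ∈ latt Γ ∧ b ∈ fixSpace Γ} := by
    rw [Submodule.map_span]
    congr 1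
    ext x
    constructor
    · rintro ⟨y, hy, rfl⟩
      exact ⟨hy, y.2⟩
    · rintro ⟨hx, hx0⟩
      exact ⟨⟨x, hx0⟩, hx, rfl⟩
  rw [eq_top_iff]
  rintro ⟨x, hx⟩ -
  have h1 := hspanV x hx
  rw [← hmap] at h1
  obtain ⟨y, hy, hyx⟩ := h1
  have h2 : y = ⟨x, hx⟩ := Subtype.ext hyx
  rwa [← h2]

/-- The Chern form of a multiple of the canonical divisor vanishes on the fixed vectors. -/
theorem can_fixed [FiniteDimensional ℂ V] (hΓ : IsTorusQuotient Γ) {ρ : V → ℂ} {m : ℕ}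
    {K : LineBundle Γ} {H : V → V → ℂ} {F : V → ℂ} (hρ : IsRamification Γ ρ)
    (hK : IsLogPluricanonical K m ρ (fun _ => 1)) (hH : IsHermitian H) (hpot : IsPot K H F)
    {x : V} (hx : IsFixed Γ x) : (H x x).re = 0 := by
  have hF := hpot.1
  obtain ⟨v₀, hv₀⟩ := ram_ne_zero hρ
  have hmir : ¬ OnMirror Γ v₀ := fun h => hv₀ ((hρ.zero_iff v₀).2 h)
  let g : V → ℂ := fun v => ρ v ^ m * Complex.exp (F v)
  have hg : Differentiable ℂ g := (hρ.holo.pow m).mul hF.cexp
  have hg0 : ∀ u, IsFixed Γ u → g (v₀ + u) ≠ 0 := by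
    intro u hu
    refine mul_ne_zero (pow_ne_zero _ fun h => ?_) (Complex.exp_ne_zero _)
    exact not_onMirror_add hΓ hmir hu ((hρ.zero_iff _).1 h)
  have hgb : ∀ (b : V) (hb : b ∈ latt Γ) (v : V), g v = tw K F (tr b hb) v * g (b + v) := by
    intro b hb v
    have h1 := hK (tr b hb) v
    have h2 : LinearMap.det (((tr b hb : Γ) : V ≃ᵃ[ℂ] V).linear : V →ₗ[ℂ] V) = 1 := by
      have h3 : (((tr b hb : Γ) : V ≃ᵃ[ℂ] V).linear : V →ₗ[ℂ] V) = LinearMap.id := by
        ext w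
        exact tr_linear b hb w
      rw [h3, LinearMap.det_id]
    rw [h2, one_pow, mul_one, mul_one, one_mul, tr_apply] at h1
    simp only [g, tw, tr_apply]
    rw [h1, Complex.exp_sub]
    field_simp
  let φ : V → ℝ := fun v => ‖g v‖ ^ 2 * Real.exp (Real.pi * (H v v).re)
  have hper : ∀ b ∈ latt Γ, ∀ v, φ (b + v) = φ v := by
    intro b hb v
    change ‖g (b + v)‖ ^ 2 * Real.exp (Real.pi * (H (b + v) (b + v)).re)
      = ‖g v‖ ^ 2 * Real.exp (Real.pi * (H v v).re)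
    have e1 : ‖g v‖ ^ 2 = ‖tw K F (tr b hb) v‖ ^ 2 * ‖g (b + v)‖ ^ 2 := by
      rw [hgb b hb v, norm_mul, mul_pow]
    rw [e1, tw_norm hpot, tr_apply, mul_sub, Real.exp_sub]
    field_simp
  have hφc : Continuous φ := ((hg.continuous.norm).pow 2).mul
    (Real.continuous_exp.comp ((diag_continuous hH).const_mul Real.pi))
  -- bounds on `v₀ + U`
  let U := fixSpace Γ
  have : ProperSpace U := FiniteDimensional.proper ℂ U
  obtain ⟨C, hC⟩ := cobounded ((latt Γ).comap (fixSpace Γ).subtype.toAddMonoidHom) (fix_span hΓ)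
  let ψ : U → ℝ := fun u => φ (v₀ + u)
  have hψ : Continuous ψ := hφc.comp (continuous_const.add continuous_subtype_val)
  have hψp : ∀ b ∈ (latt Γ).comap (fixSpace Γ).subtype.toAddMonoidHom, ∀ u, ψ (b + u) = ψ u := by
    intro b hb u
    simp only [ψ]
    rw [Submodule.coe_add, add_left_comm]
    exact hper _ hb _
  have hψ0 : ∀ u, 0 < ψ u := fun u => by
    have := hg0 u u.2
    simp only [ψ, φ]
    positivity
  have hKc : IsCompact (Metric.closedBall (0 : U) C) := isCompact_closedBall _ _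
  obtain ⟨b0, hb0, hbC0⟩ := hC 0
  have hne : (Metric.closedBall (0 : U) C).Nonempty :=
    ⟨b0 + 0, by rwa [mem_closedBall_zero_iff]⟩
  obtain ⟨u1, hu1, hmin⟩ := hKc.exists_isMinOn hne hψ.continuousOn
  obtain ⟨u2, hu2, hmax⟩ := hKc.exists_isMaxOn hne hψ.continuousOn
  have hlow : ∀ u, ψ u1 ≤ ψ u := by
    intro u
    obtain ⟨b, hb, hbC⟩ := hC u
    rw [← hψp b hb u]
    exact hmin (by rwa [mem_closedBall_zero_iff])
  have hup : ∀ u, ψ u ≤ ψ u2 := by
    intro u
    obtain ⟨b, hb, hbC⟩ := hC u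
    rw [← hψp b hb u]
    exact hmax (by rwa [mem_closedBall_zero_iff])
  -- the line
  let f : ℂ → ℂ := fun z => g (v₀ + z • x) * Complex.exp (Real.pi * (z * H x v₀))
  have hline : Differentiable ℂ fun z : ℂ => v₀ + z • x :=
    (differentiable_id.smul_const x).const_add v₀
  have hf : Differentiable ℂ f := (hg.comp hline).mul
    ((differentiable_id.mul_const (H x v₀)).const_mul (Real.pi : ℂ)).cexp
  have hzx : ∀ z : ℂ, IsFixed Γ (z • x) := fun z => U.smul_mem z hx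
  have hf0 : ∀ z, f z ≠ 0 := fun z => mul_ne_zero (hg0 _ (hzx z)) (Complex.exp_ne_zero _)
  set h := (H x x).re with hh
  set h0 := (H v₀ v₀).re with hh0
  have hfψ : ∀ z : ℂ, ψ ⟨z • x, hzx z⟩
      = ‖f z‖ ^ 2 * (Real.exp (Real.pi * h0) * Real.exp (Real.pi * h * ‖z‖ ^ 2)) := by
    intro z
    have e1 : (H (v₀ + z • x) (v₀ + z • x)).re = h0 + ‖z‖ ^ 2 * h + 2 * (z * H x v₀).re := by
      rw [add_comm v₀, h_diag_add hH, h_diag_smul hH, hH.smul_left]
      ring
    have e2 : ‖Complex.exp (Real.pi * (z * H x v₀))‖ ^ 2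
        = Real.exp (2 * (Real.pi * (z * H x v₀).re)) := by
      rw [Complex.norm_exp, Complex.re_ofReal_mul, ← Real.exp_nat_mul]
      norm_num
    have e3 : ‖f z‖ ^ 2
        = ‖g (v₀ + z • x)‖ ^ 2 * Real.exp (2 * (Real.pi * (z * H x v₀).re)) := by
      rw [← e2, ← mul_pow, ← norm_mul]
    change ‖g (v₀ + z • x)‖ ^ 2 * Real.exp (Real.pi * (H (v₀ + z • x) (v₀ + z • x)).re) = _
    rw [e3, e1, mul_assoc, ← Real.exp_add, ← Real.exp_add]
    congr 2
    ring
  by_contra hne0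
  rcases lt_or_gt_of_ne hne0 with hlt | hgt
  · refine hf0 0 ?_
    have hinv : ∀ z : ℂ, (f z)⁻¹ = 0 := by
      refine fun z => zero_of_decay (f := fun z => (f z)⁻¹) (Differentiable.inv hf hf0)
        (R := Real.exp (Real.pi * h0) / ψ u1) (c := Real.pi * (-h)) ?_ ?_ ?_ z
      · exact div_nonneg (Real.exp_pos _).le (hψ0 _).le
      · exact mul_pos Real.pi_pos (neg_pos.2 hlt)
      · intro z
        have e1 := hlow ⟨z • x, hzx z⟩
        rw [hfψ] at e1
        have e2 := hψ0 u1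
        have e3 : 0 < ‖f z‖ ^ 2 := by have := hf0 z; positivity
        rw [norm_inv, inv_pow, inv_le_iff_one_le_mul₀ e3, div_mul_eq_mul_div, div_mul_eq_mul_div,
          one_le_div e2]
        refine e1.trans (le_of_eq ?_)
        have e4 : -(Real.pi * -h * ‖z‖ ^ 2) = Real.pi * h * ‖z‖ ^ 2 := by ring
        rw [e4]
        ring
    exact inv_eq_zero.1 (hinv 0)
  · refine hf0 0 (zero_of_decay hf (R := ψ u2 / Real.exp (Real.pi * h0)) (c := Real.pi * h)
      (div_nonneg (hψ0 _).le (Real.exp_pos _).le) (mul_pos Real.pi_pos hgt) ?_ 0)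
    intro z
    have e1 := hup ⟨z • x, hzx z⟩
    rw [hfψ] at e1
    rw [Real.exp_neg, div_mul_eq_mul_div, le_div_iff₀ (Real.exp_pos _), ← div_eq_mul_inv,
      le_div_iff₀ (Real.exp_pos _)]
    refine le_trans (le_of_eq ?_) e1
    ring

end Q47.MM
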