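import Pool.Agent.Q47.MM.Kan

/-!
# Integrality on the roots
-/

set_option autoImplicit false

namespace Q47.MM

open Pool.Agent.W594.SYZ2 Pool.Agent.W594.SYZ2.TQ Pool.Agent.TH735.AQ

variable {V : Type*} [NormedAddCommGroup V] [NormedSpace ℂ V]
  {Γ : Subgroup (V ≃ᵃ[ℂ] V)}

theorem real_smul (c : ℝ) (x : V) : c • x = (c : ℂ) • x := (Complex.coe_smul c x).symm

/-- There are two lattice vectors on the line of a root which are independent over the reals. -/
theorem exists_pair_on_line (hΓ : IsTorusQuotient Γ) {g : V ≃ₗ[ℂ] V} (hg : g ∈ Lin Γ)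
    {ℓ : V →ₗ[ℂ] ℂ} {a : V} (h : IsRefl g ℓ a) :
    ∃ z w : ℂ, z • a ∈ latt Γ ∧ w • a ∈ latt Γ ∧ 0 < (z * starRingEnd ℂ w).im := by
  have hmem : ∀ b ∈ latt Γ, ℓ b • a ∈ latt Γ := by
    intro b hb
    obtain ⟨γ, hγ, rfl⟩ := hg
    have h1 := (latt Γ).sub_mem (latt_inv γ hγ hb) hb
    have h2 : γ.linear b = b + ℓ b • a := h.eq b
    rwa [h2, add_sub_cancel_left] at h1
  have key : ∃ b ∈ latt Γ, ∃ b' ∈ latt Γ, (ℓ b * starRingEnd ℂ (ℓ b')).im ≠ 0 := by
    by_contra hcon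
    push Not at hcon
    have h1 : ∀ b ∈ latt Γ, ∀ y : V, (ℓ b * starRingEnd ℂ (ℓ y)).im = 0 := by
      intro b hb y
      have hy : y ∈ Submodule.span ℝ (latt Γ : Set V) := by rw [hΓ.span_top]; trivial
      induction hy using Submodule.span_induction with
      | mem x hx => exact hcon b hb x hx
      | zero => simp
      | add x y _ _ hx hy => rw [map_add, map_add, mul_add, Complex.add_im, hx, hy, add_zero]
      | smul c x _ hx =>
        rw [real_smul, map_smul, smul_eq_mul, map_mul, Complex.conj_ofReal, mul_left_comm,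
          Complex.im_ofReal_mul, hx, mul_zero]
    have h2 : ∀ x y : V, (ℓ x * starRingEnd ℂ (ℓ y)).im = 0 := by
      intro x y
      have hx : x ∈ Submodule.span ℝ (latt Γ : Set V) := by rw [hΓ.span_top]; trivial
      induction hx using Submodule.span_induction with
      | mem x hx => exact h1 x hx y
      | zero => simp
      | add u v _ _ hu hv => rw [map_add, add_mul, Complex.add_im, hu, hv, add_zero]
      | smul c x _ hx =>
        rw [real_smul, map_smul, smul_eq_mul, mul_assoc, Complex.im_ofReal_mul, hx, mul_zero]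
    have h3 := h2 (Complex.I • a) a
    rw [map_smul, smul_eq_mul, mul_assoc, Complex.mul_conj] at h3
    simp only [Complex.mul_im, Complex.I_re, Complex.ofReal_im, mul_zero, Complex.I_im,
      Complex.ofReal_re, one_mul, zero_add] at h3
    exact h.ne (Complex.normSq_eq_zero.1 h3)
  obtain ⟨b, hb, b', hb', hne⟩ := key
  rcases lt_or_gt_of_ne hne with hlt | hgt
  · refine ⟨ℓ b', ℓ b, hmem b' hb', hmem b hb, ?_⟩
    have : ℓ b' * starRingEnd ℂ (ℓ b) = starRingEnd ℂ (ℓ b * starRingEnd ℂ (ℓ b')) := by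
      rw [map_mul, Complex.conj_conj, mul_comm]
    rw [this, Complex.conj_im]
    linarith
  · exact ⟨ℓ b, ℓ b', hmem b hb, hmem b' hb', hgt⟩

theorem im_line {H : V → V → ℂ} (hH : IsHermitian H) (a : V) (z w : ℂ) :
    (H (z • a) (w • a)).im = (z * starRingEnd ℂ w).im * (H a a).re := by
  rw [hH.smul_left, h_smul_right hH, real_diag hH, ← mul_assoc, Complex.im_mul_ofReal,
    Complex.ofReal_re]

/-- Two roots of the same reflection are proportional. -/
theorem root_prop {g : V ≃ₗ[ℂ] V} {ℓ ℓ' : V →ₗ[ℂ] ℂ} {a a' : V} (h : IsRefl g ℓ a)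
    (h' : IsRefl g ℓ' a') : ∃ t : ℂ, a' = t • a := by
  refine ⟨(ℓ' a')⁻¹ * ℓ a', ?_⟩
  have h1 := h.eq a'
  rw [h'.eq a'] at h1
  have h2 : ℓ' a' • a' = ℓ a' • a := add_left_cancel h1
  rw [mul_smul, ← h2, smul_smul, inv_mul_cancel₀ h'.ne, one_smul]

/-- The reflections among the linear parts. -/
abbrev Refls (Γ : Subgroup (V ≃ᵃ[ℂ] V)) : Type _ := {g : Lin Γ // ∃ ℓ a, IsRefl g.1 ℓ a}

/-- For each reflection there is a pair of lattice vectors such that a class is nonnegative on the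
roots if and only if the value of the alternating form on the pair is nonnegative. -/
theorem exists_tests (hΓ : IsTorusQuotient Γ) :
    ∃ u w : Refls Γ → V, (∀ g, u g ∈ latt Γ) ∧ (∀ g, w g ∈ latt Γ) ∧
      ∀ H : V → V → ℂ, IsHermitian H →
        ((∀ a ∈ roots Γ, 0 ≤ (H a a).re) ↔ ∀ g, 0 ≤ (H (u g) (w g)).im) := by
  have h1 : ∀ g : Refls Γ, ∃ ℓ a, IsRefl g.1.1 ℓ a ∧ ∃ z w : ℂ, z • a ∈ latt Γ ∧ w • a ∈ latt Γ ∧
      0 < (z * starRingEnd ℂ w).im := by
    intro g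
    obtain ⟨ℓ, a, h⟩ := g.2
    exact ⟨ℓ, a, h, exists_pair_on_line hΓ g.1.2 h⟩
  choose ℓ a ha z w hz hw hzw using h1
  refine ⟨fun g => z g • a g, fun g => w g • a g, hz, hw, fun H hH => ⟨fun h g => ?_, ?_⟩⟩
  · rw [im_line hH]
    exact mul_nonneg (hzw g).le (h _ ⟨_, g.1.2, ℓ g, ha g⟩)
  · rintro h a' ⟨g, hg, ℓ', h'⟩
    obtain ⟨t, ht⟩ := root_prop (ha ⟨⟨g, hg⟩, ℓ', a', h'⟩) h'
    have h2 := h ⟨⟨g, hg⟩, ℓ', a', h'⟩
    rw [im_line hH] at h2
    rw [ht, h_diag_smul hH]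
    exact mul_nonneg (sq_nonneg _) ((mul_nonneg_iff_of_pos_left (hzw _)).1 h2)

end Q47.MM
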