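import Pool.Agent.Q47.MM.Latt
import Pool.Agent.Q47.MM.Cone
import Pool.Agent.Q47.EB.Pairs

/-!
# Adjoint classes with real coefficients on torus quotients
-/

set_option autoImplicit false

namespace Q47.MM

open Pool.Agent.W594.SYZ2 Pool.Agent.W594.SYZ2.TQ Pool.Agent.TH735.AQ Q47.EB

variable {V : Type*} [NormedAddCommGroup V] [NormedSpace ℂ V]
  {Γ : Subgroup (V ≃ᵃ[ℂ] V)}

theorem prod_holo {ι : Type*} (s : Finset ι) (f : ι → V → ℂ)
    (h : ∀ i ∈ s, Differentiable ℂ (f i)) : Differentiable ℂ fun v => ∏ i ∈ s, f i v := by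
  classical
  induction s using Finset.induction_on with
  | empty => simp only [Finset.prod_empty]; exact differentiable_const _
  | insert i s hi ih =>
    simp only [Finset.prod_insert hi]
    exact (h i (Finset.mem_insert_self _ _)).mul
      (ih fun j hj => h j (Finset.mem_insert_of_mem hj))

/-- The line bundle `K^a ⊗ D_1^{b_1} ⊗ ... ⊗ D_r^{b_r}`. -/
noncomputable def adj (K : LineBundle Γ) {r : ℕ} (D : Fin r → LineBundle Γ) (a : ℕ)
    (b : Fin r → ℕ) : LineBundle Γ where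
  e := fun γ v => K.e γ v ^ a * ∏ i, (D i).e γ v ^ b i
  holo := fun γ => by
    have h1 : Differentiable ℂ fun v => ∏ i, (D i).e γ v ^ b i :=
      prod_holo _ _ fun i _ => ((D i).holo γ).pow (b i)
    exact ((K.holo γ).pow a).mul h1
  ne_zero := fun γ v => mul_ne_zero (pow_ne_zero _ (K.ne_zero γ v))
    (Finset.prod_ne_zero_iff.2 fun i _ => pow_ne_zero _ ((D i).ne_zero γ v))
  mul := fun γ δ v => by
    rw [K.mul, mul_pow]
    have h1 : ∏ i, (D i).e (γ * δ) v ^ b i
        = (∏ i, (D i).e γ ((δ : V ≃ᵃ[ℂ] V) v) ^ b i) * ∏ i, (D i).e δ v ^ b i := by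
      rw [← Finset.prod_mul_distrib]
      exact Finset.prod_congr rfl fun i _ => by rw [(D i).mul, mul_pow]
    rw [h1]
    ring
  stab := fun γ v h => by
    rw [K.stab γ v h, one_pow, one_mul]
    exact Finset.prod_eq_one fun i _ => by rw [(D i).stab γ v h, one_pow]

/-- The class `s K + Σ d_i D_i`. -/
noncomputable def cls (HK : V → V → ℂ) {r : ℕ} (HD : Fin r → V → V → ℂ) (s : ℝ) (d : Fin r → ℝ)
    (v w : V) : ℂ := s * HK v w + ∑ i, d i * HD i v w

omit [NormedAddCommGroup V] [NormedSpace ℂ V] in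
theorem cls_re (HK : V → V → ℂ) {r : ℕ} (HD : Fin r → V → V → ℂ) (s : ℝ) (d : Fin r → ℝ)
    (v w : V) : (cls HK HD s d v w).re = s * (HK v w).re + ∑ i, d i * (HD i v w).re := by
  rw [cls, Complex.add_re, Complex.re_ofReal_mul, Complex.re_sum]
  congr 1
  exact Finset.sum_congr rfl fun i _ => Complex.re_ofReal_mul _ _

omit [NormedAddCommGroup V] [NormedSpace ℂ V] in
theorem cls_im (HK : V → V → ℂ) {r : ℕ} (HD : Fin r → V → V → ℂ) (s : ℝ) (d : Fin r → ℝ)
    (v w : V) : (cls HK HD s d v w).im = s * (HK v w).im + ∑ i, d i * (HD i v w).im := by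
  rw [cls, Complex.add_im, Complex.im_ofReal_mul, Complex.im_sum]
  congr 1
  exact Finset.sum_congr rfl fun i _ => Complex.im_ofReal_mul _ _

theorem cls_inv {HK : V → V → ℂ} {r : ℕ} {HD : Fin r → V → V → ℂ} (hK : Inv Γ HK)
    (hD : ∀ i, Inv Γ (HD i)) (s : ℝ) (d : Fin r → ℝ) : Inv Γ (cls HK HD s d) where
  herm := by
    refine ⟨fun u v w => ?_, fun a v w => ?_, fun v w => ?_⟩
    · simp only [cls, hK.herm.add_left, (hD _).herm.add_left, mul_add, Finset.sum_add_distrib]
      ring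
    · simp only [cls, hK.herm.smul_left, (hD _).herm.smul_left, mul_add, Finset.mul_sum]
      congr 1
      · ring
      · exact Finset.sum_congr rfl fun i _ => by ring
    · simp only [cls, map_add, map_mul, map_sum, Complex.conj_ofReal, ← hK.herm.symm,
        ← (hD _).herm.symm]
  inv := fun g hg v w => by simp only [cls, hK.inv g hg, (hD _).inv g hg]

theorem chern_adj {K : LineBundle Γ} {r : ℕ} {D : Fin r → LineBundle Γ} {HK : V → V → ℂ}
    {HD : Fin r → V → V → ℂ} (hK : IsChernForm K HK) (hD : ∀ i, IsChernForm (D i) (HD i))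
    (a : ℕ) (b : Fin r → ℕ) :
    IsChernForm (adj K D a b) (cls HK HD a fun i => b i) := by
  obtain ⟨hH, F, hF, hFe⟩ := hK
  choose hHD G hG hGe using hD
  refine ⟨?_, fun v => a * F v + ∑ i, b i * G i v, ?_, ?_⟩
  · refine ⟨fun u v w => ?_, fun a v w => ?_, fun v w => ?_⟩
    · simp only [cls, hH.add_left, (hHD _).add_left, mul_add, Finset.sum_add_distrib]
      ring
    · simp only [cls, hH.smul_left, (hHD _).smul_left, mul_add, Finset.mul_sum]
      congr 1
      · ring
      · exact Finset.sum_congr rfl fun i _ => by ring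
    · simp only [cls, map_add, map_mul, map_sum, Complex.conj_ofReal, ← hH.symm, ← (hHD _).symm]
  · refine (hF.const_mul _).add (Differentiable.fun_sum fun i _ => (hG i).const_mul _)
  · intro γ v
    have h1 : ‖(adj K D a b).e γ v‖ ^ 2 = (‖K.e γ v‖ ^ 2) ^ a *
        ∏ i, (‖(D i).e γ v‖ ^ 2) ^ b i := by
      change ‖K.e γ v ^ a * ∏ i, (D i).e γ v ^ b i‖ ^ 2 = _
      rw [norm_mul, norm_pow, norm_prod, mul_pow, ← pow_mul, ← pow_mul, mul_comm a 2,
        ← Finset.prod_pow]
      congr 1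
      exact Finset.prod_congr rfl fun i _ => by
        rw [norm_pow, ← pow_mul, ← pow_mul, mul_comm]
    have h2 : ∀ i, (‖(D i).e γ v‖ ^ 2) ^ b i = Real.exp (b i * (Real.pi *
        (HD i ((γ : V ≃ᵃ[ℂ] V) v) ((γ : V ≃ᵃ[ℂ] V) v)).re
        + 2 * (G i ((γ : V ≃ᵃ[ℂ] V) v)).re - (Real.pi * (HD i v v).re + 2 * (G i v).re))) :=
      fun i => by rw [hGe, ← Real.exp_nat_mul]
    have hG' : ∀ x : V, ((a : ℂ) * F x + ∑ i, (b i : ℂ) * G i x).re
        = a * (F x).re + ∑ i, (b i : ℝ) * (G i x).re := by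
      intro x
      rw [Complex.add_re, Complex.re_sum]
      congr 1
      · have : ((a : ℕ) : ℂ) = ((a : ℝ) : ℂ) := by push_cast; rfl
        rw [this, Complex.re_ofReal_mul]
      · refine Finset.sum_congr rfl fun i _ => ?_
        have : ((b i : ℕ) : ℂ) = ((b i : ℝ) : ℂ) := by push_cast; rfl
        rw [this, Complex.re_ofReal_mul]
    rw [h1, Finset.prod_congr rfl fun i _ => h2 i, ← Real.exp_sum, hFe, ← Real.exp_nat_mul,
      ← Real.exp_add]
    congr 1
    simp only [cls_re, hG', mul_add, mul_sub, Finset.sum_add_distrib, Finset.sum_sub_distrib,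
      Finset.mul_sum]
    have e1 : ∀ x : V, ∑ i, (b i : ℝ) * (Real.pi * (HD i x x).re)
        = ∑ i, Real.pi * ((b i : ℝ) * (HD i x x).re) := fun x =>
      Finset.sum_congr rfl fun i _ => by ring
    have e2 : ∀ x : V, ∑ i, (b i : ℝ) * (2 * (G i x).re)
        = ∑ i, 2 * ((b i : ℝ) * (G i x).re) := fun x =>
      Finset.sum_congr rfl fun i _ => by ring
    rw [e1, e1, e2, e2]
    ring

/-- A line bundle with a nonzero section is nef. -/
theorem nef_of_section [FiniteDimensional ℂ V] (hΓ : IsTorusQuotient Γ) {L : LineBundle Γ}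
    {H : V → V → ℂ} (hc : IsChernForm L H) {s : V → ℂ} (hs : L.IsSection s) (hs0 : ∃ v, s v ≠ 0) :
    IsNefForm H := by
  obtain ⟨hH, F, hF, hFe⟩ := hc
  have hpot : IsPot L H F := ⟨hF, hFe⟩
  obtain ⟨hs1, hs2⟩ := hs
  obtain ⟨v₀, hv₀⟩ := hs0
  have : ProperSpace V := FiniteDimensional.proper ℂ V
  let u : V → ℂ := fun v => s v * Complex.exp (-F v)
  have hu : Differentiable ℂ u := hs1.mul hF.neg.cexp
  have hut : ∀ (γ : Γ) (v : V), u ((γ : V ≃ᵃ[ℂ] V) v) = tw L F γ v * u v := by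
    intro γ v
    simp only [u, tw]
    rw [hs2, Complex.exp_sub, Complex.exp_neg, Complex.exp_neg]
    field_simp
  let φ : V → ℝ := fun v => ‖u v‖ ^ 2 * Real.exp (-(Real.pi * (H v v).re))
  have hper : ∀ b ∈ latt Γ, ∀ v, φ (b + v) = φ v := by
    intro b hb v
    change ‖u (b + v)‖ ^ 2 * Real.exp (-(Real.pi * (H (b + v) (b + v)).re))
      = ‖u v‖ ^ 2 * Real.exp (-(Real.pi * (H v v).re))
    have e1 : ‖u (b + v)‖ ^ 2 = ‖tw L F (tr b hb) v‖ ^ 2 * ‖u v‖ ^ 2 := by
      have := hut (tr b hb) v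
      rw [tr_apply] at this
      rw [this, norm_mul, mul_pow]
    rw [e1, tw_norm hpot, tr_apply, mul_sub, Real.exp_sub, Real.exp_neg, Real.exp_neg]
    field_simp
  have hφc : Continuous φ := ((hu.continuous.norm).pow 2).mul
    (Real.continuous_exp.comp ((diag_continuous hH).const_mul Real.pi).neg)
  obtain ⟨C, hC⟩ := cobounded (latt Γ) hΓ.span_top
  have hK : IsCompact (Metric.closedBall (0 : V) C) := isCompact_closedBall _ _
  obtain ⟨R, hR⟩ := (isBounded_iff_forall_norm_le.1 (hK.image hφc).isBounded)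
  have hbd : ∀ v, φ v ≤ R := by
    intro v
    obtain ⟨b, hb, hbC⟩ := hC v
    rw [← hper b hb v]
    exact (le_abs_self _).trans (hR _ ⟨b + v, by rwa [mem_closedBall_zero_iff], rfl⟩)
  have hR0 : 0 ≤ R := (mul_nonneg (sq_nonneg _) (Real.exp_pos _).le).trans (hbd 0)
  intro x
  by_contra hneg
  push Not at hneg
  let f : ℂ → ℂ := fun z => u (v₀ + z • x) * Complex.exp (-(Real.pi * (z * H x v₀)))
  have hline : Differentiable ℂ fun z : ℂ => v₀ + z • x :=
    (differentiable_id.smul_const x).const_add v₀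
  have hf : Differentiable ℂ f := (hu.comp hline).mul
    (((differentiable_id.mul_const (H x v₀)).const_mul (Real.pi : ℂ)).neg).cexp
  have h0 := zero_of_decay hf (R := R * Real.exp (Real.pi * (H v₀ v₀).re))
    (c := Real.pi * (-(H x x).re)) (by positivity) (mul_pos Real.pi_pos (neg_pos.2 hneg)) (by
      intro z
      have e1 : (H (v₀ + z • x) (v₀ + z • x)).re
          = (H v₀ v₀).re + ‖z‖ ^ 2 * (H x x).re + 2 * (z * H x v₀).re := by
        rw [add_comm v₀, h_diag_add hH, h_diag_smul hH, hH.smul_left]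
        ring
      have e2 : ‖Complex.exp (-(Real.pi * (z * H x v₀)))‖ ^ 2
          = Real.exp (-(2 * (Real.pi * (z * H x v₀).re))) := by
        rw [Complex.norm_exp, Complex.neg_re, Complex.re_ofReal_mul, ← Real.exp_nat_mul]
        congr 1
        push_cast
        ring
      have e3 : ‖f z‖ ^ 2
          = ‖u (v₀ + z • x)‖ ^ 2 * Real.exp (-(2 * (Real.pi * (z * H x v₀).re))) := by
        rw [← e2, ← mul_pow, ← norm_mul]
      have e4 : ‖u (v₀ + z • x)‖ ^ 2 ≤ R * Real.exp (Real.pi *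
          (H (v₀ + z • x) (v₀ + z • x)).re) := by
        have e5 : ‖u (v₀ + z • x)‖ ^ 2 * Real.exp (-(Real.pi *
          (H (v₀ + z • x) (v₀ + z • x)).re)) ≤ R := hbd _
        rwa [Real.exp_neg, ← div_eq_mul_inv, div_le_iff₀ (Real.exp_pos _)] at e5
      rw [e3]
      refine (mul_le_mul_of_nonneg_right e4 (Real.exp_pos _).le).trans (le_of_eq ?_)
      rw [mul_assoc, mul_assoc, ← Real.exp_add, ← Real.exp_add, e1]
      congr 2
      ring) 0
  have h1 : u v₀ = 0 := by
    have h2 : u (v₀ + (0 : ℂ) • x) * Complex.exp (-(Real.pi * (0 * H x v₀))) = 0 := h0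
    rw [zero_smul, add_zero] at h2
    exact (mul_eq_zero.1 h2).resolve_right (Complex.exp_ne_zero _)
  exact (mul_ne_zero hv₀ (Complex.exp_ne_zero _)) h1

end Q47.MM
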