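import Pool.Agent.TH735.AQ.Mero
import Pool.Agent.TH735.AQ.Uniq

/-!
# Reflections and invariant hermitian forms on torus quotients
-/

set_option autoImplicit false

namespace Q47.MM

open Pool.Agent.W594.SYZ2 Pool.Agent.W594.SYZ2.TQ Pool.Agent.TH735.AQ

variable {V : Type*} [NormedAddCommGroup V] [NormedSpace ℂ V]

/-- `g` is a complex reflection: `g v = v + ℓ(v) a` with `ℓ(a) ≠ 0`. -/
structure IsRefl (g : V ≃ₗ[ℂ] V) (ℓ : V →ₗ[ℂ] ℂ) (a : V) : Prop where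
  eq : ∀ v, g v = v + ℓ v • a
  ne : ℓ a ≠ 0

theorem IsRefl.a_ne {g : V ≃ₗ[ℂ] V} {ℓ : V →ₗ[ℂ] ℂ} {a : V} (h : IsRefl g ℓ a) : a ≠ 0 := by
  rintro rfl
  exact h.ne (map_zero ℓ)

theorem IsRefl.fix {g : V ≃ₗ[ℂ] V} {ℓ : V →ₗ[ℂ] ℂ} {a : V} (h : IsRefl g ℓ a) {x : V} :
    g x = x ↔ ℓ x = 0 := by
  rw [h.eq]
  constructor
  · intro h1
    have h2 : ℓ x • a = 0 := by
      have := congrArg (fun y => y - x) h1
      simpa using this
    exact (smul_eq_zero.1 h2).resolve_right h.a_ne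
  · intro h1
    rw [h1, zero_smul, add_zero]

/-- The decomposition defined by a reflection. -/
theorem IsRefl.decomp {g : V ≃ₗ[ℂ] V} {ℓ : V →ₗ[ℂ] ℂ} {a : V} (h : IsRefl g ℓ a) (v : V) :
    g (v - (ℓ v / ℓ a) • a) = v - (ℓ v / ℓ a) • a := by
  rw [h.fix, map_sub, map_smul, smul_eq_mul, div_mul_cancel₀ _ h.ne, sub_self]

theorem IsRefl.conj {g : V ≃ₗ[ℂ] V} {ℓ : V →ₗ[ℂ] ℂ} {a : V} (h : IsRefl g ℓ a)
    (k : V ≃ₗ[ℂ] V) :
    IsRefl (k * g * k⁻¹) (ℓ.comp ((k⁻¹ : V ≃ₗ[ℂ] V) : V →ₗ[ℂ] V)) (k a) := by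
  refine ⟨fun v => ?_, ?_⟩
  · change k (g ((k⁻¹ : V ≃ₗ[ℂ] V) v)) = v + ℓ ((k⁻¹ : V ≃ₗ[ℂ] V) v) • k a
    rw [h.eq, map_add, map_smul]
    congr 1
    exact k.apply_symm_apply v
  · change ℓ ((k⁻¹ : V ≃ₗ[ℂ] V) (k a)) ≠ 0
    have : (k⁻¹ : V ≃ₗ[ℂ] V) (k a) = a := k.symm_apply_apply a
    rw [this]
    exact h.ne

/-- `H` is a hermitian form which is invariant under the linear parts of `Γ`. -/
structure Inv (Γ : Subgroup (V ≃ᵃ[ℂ] V)) (H : V → V → ℂ) : Prop where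
  herm : IsHermitian H
  inv : ∀ g ∈ Lin Γ, ∀ v w, H (g v) (g w) = H v w

variable {Γ : Subgroup (V ≃ᵃ[ℂ] V)}

theorem inv_of_chern [FiniteDimensional ℂ V] {L : LineBundle Γ} {H : V → V → ℂ} (hc : IsChernForm L H) : Inv Γ H := by
  obtain ⟨hH, F, hF, hFe⟩ := hc
  refine ⟨hH, ?_⟩
  rintro g ⟨γ, hγ, rfl⟩ v w
  exact h_inv hH ⟨hF, hFe⟩ ⟨γ, hγ⟩ v w

theorem Inv.sub_smul {H P : V → V → ℂ} (hH : Inv Γ H) (hP : Inv Γ P) (t : ℝ) :
    Inv Γ (fun v w => H v w - t * P v w) where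
  herm := by
    refine ⟨fun u v w => ?_, fun a v w => ?_, fun v w => ?_⟩
    · simp only [hH.herm.add_left, hP.herm.add_left]; ring
    · simp only [hH.herm.smul_left, hP.herm.smul_left]; ring
    · rw [map_sub, map_mul, Complex.conj_ofReal, ← hH.herm.symm, ← hP.herm.symm]
  inv := fun g hg v w => by rw [hH.inv g hg, hP.inv g hg]

theorem Inv.perp {H : V → V → ℂ} (hH : Inv Γ H) {g : V ≃ₗ[ℂ] V} (hg : g ∈ Lin Γ)
    {ℓ : V →ₗ[ℂ] ℂ} {a : V} (h : IsRefl g ℓ a) {x : V} (hx : g x = x) : H a x = 0 := by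
  have h1 := hH.inv g hg a x
  rw [hx, h.eq a, hH.herm.add_left, hH.herm.smul_left] at h1
  have h2 : ℓ a * H a x = 0 := by linear_combination h1
  exact (mul_eq_zero.1 h2).resolve_left h.ne

theorem real_diag {H : V → V → ℂ} (hH : IsHermitian H) (v : V) : H v v = ((H v v).re : ℂ) := by
  have h := hH.symm v v
  exact (Complex.conj_eq_iff_real.1 h.symm).elim fun r hr => by rw [hr, Complex.ofReal_re]

theorem Inv.zero_of_diag {H : V → V → ℂ} (hH : Inv Γ H) {g : V ≃ₗ[ℂ] V} (hg : g ∈ Lin Γ)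
    {ℓ : V →ₗ[ℂ] ℂ} {a : V} (h : IsRefl g ℓ a) (h0 : (H a a).re = 0) (v : V) : H a v = 0 := by
  have h1 := hH.perp hg h (h.decomp v)
  have h2 : v = (ℓ v / ℓ a) • a + (v - (ℓ v / ℓ a) • a) := by abel
  rw [h2, h_add_right hH.herm, h1, h_smul_right hH.herm, real_diag hH.herm a, h0]
  simp

/-- Invariant forms are proportional on a root. -/
theorem Inv.prop {H P : V → V → ℂ} (hH : Inv Γ H) (hP : Inv Γ P) {g : V ≃ₗ[ℂ] V}
    (hg : g ∈ Lin Γ) {ℓ : V →ₗ[ℂ] ℂ} {a : V} (h : IsRefl g ℓ a) (hPa : (P a a).re ≠ 0) (v : V) :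
    H a v = (((H a a).re / (P a a).re : ℝ) : ℂ) * P a v := by
  have h1 := (hH.sub_smul hP ((H a a).re / (P a a).re)).zero_of_diag hg h (by
    rw [Complex.sub_re, Complex.re_ofReal_mul, div_mul_cancel₀ _ hPa, sub_self]) v
  exact sub_eq_zero.1 h1

/-- Existence of an invariant positive definite hermitian form. -/
theorem exists_pos [FiniteDimensional ℂ V] (hΓ : IsTorusQuotient Γ) :
    ∃ P : V → V → ℂ, Inv Γ P ∧ IsPositiveForm P := by
  have := finite_Lin hΓ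
  have : Fintype (Lin Γ) := Fintype.ofFinite _
  let b := Module.finBasis ℂ V
  let Q : V → V → ℂ := fun v w => ∑ i, b.repr v i * starRingEnd ℂ (b.repr w i)
  have hQ : IsHermitian Q := by
    refine ⟨fun u v w => ?_, fun a v w => ?_, fun v w => ?_⟩
    · simp only [Q, map_add, Finsupp.add_apply, add_mul, Finset.sum_add_distrib]
    · simp only [Q, map_smul, Finsupp.smul_apply, smul_eq_mul, mul_assoc, Finset.mul_sum]
    · simp only [Q, map_sum, map_mul, Complex.conj_conj]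
      exact Finset.sum_congr rfl fun i _ => mul_comm _ _
  have hQre : ∀ v, (Q v v).re = ∑ i, Complex.normSq (b.repr v i) := by
    intro v
    simp only [Q, Complex.mul_conj, Complex.re_sum, Complex.ofReal_re]
  refine ⟨fun v w => ∑ g : Lin Γ, Q (g.1 v) (g.1 w), ⟨?_, ?_⟩, ?_⟩
  · refine ⟨fun u v w => ?_, fun a v w => ?_, fun v w => ?_⟩
    · simp only [map_add, hQ.add_left, Finset.sum_add_distrib]
    · simp only [map_smul, hQ.smul_left, Finset.mul_sum]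
    · simp only [map_sum]
      exact Finset.sum_congr rfl fun g _ => hQ.symm _ _
  · intro k hk v w
    refine Fintype.sum_equiv (Equiv.mulRight ⟨k, hk⟩) _ _ ?_
    intro g
    rfl
  · intro v hv
    rw [Complex.re_sum]
    refine Finset.sum_pos (fun g _ => ?_) ⟨1, Finset.mem_univ _⟩
    rw [hQre]
    have hgv : g.1 v ≠ 0 := fun h => hv ((LinearEquiv.map_eq_zero_iff g.1).1 h)
    have hr : b.repr (g.1 v) ≠ 0 := fun h => hgv ((LinearEquiv.map_eq_zero_iff b.repr).1 h)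
    obtain ⟨i, hi⟩ := Finsupp.ne_iff.1 hr
    exact Finset.sum_pos' (fun i _ => Complex.normSq_nonneg _)
      ⟨i, Finset.mem_univ _, Complex.normSq_pos.2 hi⟩

/-- The set of the roots. -/
def roots (Γ : Subgroup (V ≃ᵃ[ℂ] V)) : Set V := {a | ∃ g ∈ Lin Γ, ∃ ℓ, IsRefl g ℓ a}

theorem roots_inv {a : V} (ha : a ∈ roots Γ) {k : V ≃ₗ[ℂ] V} (hk : k ∈ Lin Γ) :
    k a ∈ roots Γ := by
  obtain ⟨g, hg, ℓ, h⟩ := ha
  exact ⟨k * g * k⁻¹, (Lin Γ).mul_mem ((Lin Γ).mul_mem hk hg) ((Lin Γ).inv_mem hk), _, h.conj k⟩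

/-- A vector fixed by all reflections. -/
def IsFixed (Γ : Subgroup (V ≃ᵃ[ℂ] V)) (x : V) : Prop :=
  ∀ g ∈ Lin Γ, (∃ ℓ a, IsRefl g ℓ a) → g x = x

/-- The criterion for positivity: it suffices to look at the roots and the fixed vectors. -/
theorem nef_of_roots [FiniteDimensional ℂ V] (hΓ : IsTorusQuotient Γ) {H : V → V → ℂ}
    (hH : Inv Γ H) (hU : ∀ x, IsFixed Γ x → 0 ≤ (H x x).re) (hS : ∀ a ∈ roots Γ, 0 ≤ (H a a).re) :
    IsNefForm H := by
  obtain ⟨P, hP, hpos⟩ := exists_pos hΓ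
  let K : Submodule ℂ V := Submodule.span ℂ (roots Γ)
  have hK : ∀ γ ∈ Γ, ∀ v ∈ K, γ.linear v ∈ K := by
    intro γ hγ v hv
    have h1 : γ.linear v ∈ K.map ((γ.linear : V ≃ₗ[ℂ] V) : V →ₗ[ℂ] V) := ⟨v, hv, rfl⟩
    rw [Submodule.map_span] at h1
    refine Submodule.span_mono ?_ h1
    rintro _ ⟨a, ha, rfl⟩
    exact roots_inv ha ⟨γ, hγ, rfl⟩
  obtain ⟨pr, h1, h2, h3⟩ := exists_proj hΓ K hK
  have hμ : ∀ a ∈ roots Γ, ∀ v, H a v = (((H a a).re / (P a a).re : ℝ) : ℂ) * P a v := by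
    rintro a ⟨g, hg, ℓ, h⟩ v
    exact hH.prop hP hg h (hpos a h.a_ne).ne' v
  have hμ0 : ∀ a ∈ roots Γ, 0 ≤ (H a a).re / (P a a).re := by
    intro a ha
    obtain ⟨g, hg, ℓ, h⟩ := id ha
    exact div_nonneg (hS a ha) (hpos a h.a_ne).le
  have hμμ : ∀ a ∈ roots Γ, ∀ b ∈ roots Γ, H a b =
      ((Real.sqrt ((H a a).re / (P a a).re) : ℝ) : ℂ) *
        ((Real.sqrt ((H b b).re / (P b b).re) : ℝ) : ℂ) * P a b := by
    intro a ha b hb
    by_cases hab : P a b = 0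
    · rw [hμ a ha, hab, mul_zero, mul_zero]
    · have e1 : (((H a a).re / (P a a).re : ℝ) : ℂ) = (((H b b).re / (P b b).re : ℝ) : ℂ) := by
        have e2 := hμ a ha b
        have e3 := hH.herm.symm b a
        rw [hμ b hb a, map_mul, Complex.conj_ofReal, ← hP.herm.symm, e2] at e3
        exact mul_right_cancel₀ hab e3
      rw [hμ a ha b, Complex.ofReal_inj.1 e1, ← Complex.ofReal_mul,
        Real.mul_self_sqrt (hμ0 b hb)]
  intro v
  have hv : v = pr v + (v - pr v) := by abel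
  have hfix : IsFixed Γ (v - pr v) := by
    rintro g ⟨γ, hγ, rfl⟩ ⟨ℓ, a, h⟩
    have e1 : γ.linear (v - pr v) - (v - pr v) ∈ K := by
      have e0 : γ.linear (v - pr v) = (v - pr v) + ℓ (v - pr v) • a := h.eq _
      rw [e0, add_sub_cancel_left]
      exact K.smul_mem _ (Submodule.subset_span ⟨_, ⟨γ, hγ, rfl⟩, ℓ, h⟩)
    have e2 := h2 _ e1
    rw [map_sub, h3 γ hγ, map_sub, h2 _ (h1 v), sub_self, map_zero, sub_zero] at e2
    exact (sub_eq_zero.1 e2.symm)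
  have hcross : ∀ n ∈ K, H n (v - pr v) = 0 := by
    intro n hn
    induction hn using Submodule.span_induction with
    | mem x hx =>
      obtain ⟨g, hg, ℓ, h⟩ := hx
      exact hH.perp hg h (hfix g hg ⟨ℓ, x, h⟩)
    | zero => exact h_zero_left hH.herm _
    | add x y _ _ hx hy => rw [hH.herm.add_left, hx, hy, add_zero]
    | smul c x _ hx => rw [hH.herm.smul_left, hx, mul_zero]
  have hn : 0 ≤ (H (pr v) (pr v)).re := by
    obtain ⟨n, f, a, hfa⟩ := Submodule.mem_span_set'.1 (h1 v)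
    have hl : ∀ (Q : V → V → ℂ) (hQ : IsHermitian Q) (x : Fin n → V) (c : Fin n → ℂ) (y : V),
        Q (∑ i, c i • x i) y = ∑ i, c i * Q (x i) y := by
      intro Q hQ x c y
      have key : ∀ s : Finset (Fin n), Q (∑ i ∈ s, c i • x i) y = ∑ i ∈ s, c i * Q (x i) y := by
        intro s
        induction s using Finset.induction_on with
        | empty => simp [h_zero_left hQ]
        | insert i s hi ih => rw [Finset.sum_insert hi, Finset.sum_insert hi, hQ.add_left,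
            hQ.smul_left, ih]
      exact key _
    have hr : ∀ (Q : V → V → ℂ) (hQ : IsHermitian Q) (x : Fin n → V) (c : Fin n → ℂ) (y : V),
        Q y (∑ i, c i • x i) = ∑ i, starRingEnd ℂ (c i) * Q y (x i) := by
      intro Q hQ x c y
      rw [hQ.symm, hl Q hQ, map_sum]
      exact Finset.sum_congr rfl fun i _ => by rw [map_mul, ← hQ.symm]
    have e1 : H (pr v) (pr v) = P (∑ i, (f i * ((Real.sqrt ((H (a i) (a i)).re /
        (P (a i) (a i)).re) : ℝ) : ℂ)) • (a i : V)) (∑ i, (f i * ((Real.sqrt ((H (a i) (a i)).re /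
        (P (a i) (a i)).re) : ℝ) : ℂ)) • (a i : V)) := by
      rw [← hfa, hl H hH.herm, hl P hP.herm]
      refine Finset.sum_congr rfl fun i _ => ?_
      rw [hr H hH.herm, hr P hP.herm, Finset.mul_sum, Finset.mul_sum]
      refine Finset.sum_congr rfl fun j _ => ?_
      rw [hμμ _ (a i).2 _ (a j).2, map_mul, Complex.conj_ofReal]
      ring
    rw [e1]
    by_cases h0 : (∑ i, (f i * ((Real.sqrt ((H (a i) (a i)).re /
        (P (a i) (a i)).re) : ℝ) : ℂ)) • (a i : V)) = 0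
    · rw [h0, h_zero_left hP.herm, Complex.zero_re]
    · exact (hpos _ h0).le
  rw [hv, h_diag_add hH.herm, hcross _ (h1 v), Complex.zero_re, mul_zero, add_zero]
  exact add_nonneg hn (hU _ hfix)

end Q47.MM
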